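import Pool.Agent.FS.JZero.Fam

/-! Integral form of the family and the auxiliary prime. -/

namespace Pool.Agent.FS.JZero

/-- cubic factor -/
def fD (x z : ℤ) : ℤ := x ^ 3 - 2 * x ^ 2 * z + 56 * x * z ^ 2 + 32 * z ^ 3
/-- quartic factor -/
def fT (x z : ℤ) : ℤ := x ^ 4 + 20 * x ^ 3 * z + 160 * x * z ^ 3 - 64 * z ^ 4
/-- sextic factor -/
def fG (x z : ℤ) : ℤ := x ^ 6 + 92 * x ^ 5 * z + 3104 * x ^ 4 * z ^ 2 + 8384 * x ^ 3 * z ^ 3 +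
  9728 * x ^ 2 * z ^ 4 - 1024 * x * z ^ 5 + 4096 * z ^ 6
/-- derivative of the sextic factor -/
def fG' (x z : ℤ) : ℤ := 6 * x ^ 5 + 460 * x ^ 4 * z + 12416 * x ^ 3 * z ^ 2 +
  25152 * x ^ 2 * z ^ 3 + 19456 * x * z ^ 4 - 1024 * z ^ 5

lemma cop {p x z : ℤ} (hp : Prime p) (hz : 1446 ∣ z) (h : ¬p ∣ z) (hG : p ∣ fG x z) :
    ¬p ∣ fG' x z ∧ ¬p ∣ fD x z ∧ ¬p ∣ fT x z ∧ ¬p ∣ x := by
  have key : ∀ (R : ℤ) (m : ℕ), R ∣ 1446 ^ 20 → ¬p ∣ R * z ^ m := by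
    intro R m hR hd
    rcases hp.dvd_or_dvd hd with h1 | h1
    · exact h ((hp.dvd_of_dvd_pow (h1.trans hR)).trans hz)
    · exact h (hp.dvd_of_dvd_pow h1)
  refine ⟨fun h1 => key 14922084777984 10 (by norm_num) ?_, fun h1 => key 859963392 8 (by norm_num) ?_,
    fun h1 => key 241864704 9 (by norm_num) ?_, fun h1 => key 4096 6 (by norm_num) ?_⟩
  · have e : 14922084777984 * z ^ 10 = (3543668864 * z ^ 4 + 2440551008 * x * z ^ 3 +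
        803050564 * x ^ 2 * z ^ 2 + 28980322 * x ^ 3 * z + 372624 * x ^ 4) * fG x z +
        (-397672960 * z ^ 5 - 1337251072 * x * z ^ 4 - 739106992 * x ^ 2 * z ^ 3 -
        199152820 * x ^ 3 * z ^ 2 - 5782315 * x ^ 4 * z - 62104 * x ^ 5) * fG' x z := by
      unfold fG fG'; ring
    rw [e]; exact dvd_add (hG.mul_left _) (h1.mul_left _)
  · have e : 859963392 * z ^ 8 = (127816 * z ^ 2 - 5682 * x * z + 2225 * x ^ 2) * fG x z +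
        (10513408 * z ^ 5 - 13581056 * x * z ^ 4 - 14898752 * x ^ 2 * z ^ 3 -
        6793808 * x ^ 3 * z ^ 2 - 203468 * x ^ 4 * z - 2225 * x ^ 5) * fD x z := by
      unfold fG fD; ring
    rw [e]; exact dvd_add (hG.mul_left _) (h1.mul_left _)
  · have e : 241864704 * z ^ 9 =
        (40240 * z ^ 3 + 2260 * x * z ^ 2 + 4949 * x ^ 2 * z + 242 * x ^ 3) * fG x z +
        (-1203776 * z ^ 5 - 3508640 * x * z ^ 4 - 2374544 * x ^ 2 * z ^ 3 -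
        761276 * x ^ 3 * z ^ 2 - 22373 * x ^ 4 * z - 242 * x ^ 5) * fT x z := by
      unfold fG fT; ring
    rw [e]; exact dvd_add (hG.mul_left _) (h1.mul_left _)
  · have e : 4096 * z ^ 6 = fG x z - x * (x ^ 5 + 92 * x ^ 4 * z + 3104 * x ^ 3 * z ^ 2 +
        8384 * x ^ 2 * z ^ 3 + 9728 * x * z ^ 4 - 1024 * z ^ 5) := by unfold fG; ring
    rw [e]; exact dvd_sub hG (h1.mul_right _)

lemma aux {z : ℤ} (hz : 1446 ∣ z) (z0 : z ≠ 0) : ∃ (q : ℕ) (w : ℤ), q.Prime ∧ z ∣ w - 1 ∧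
    ¬(q : ℤ) ∣ z ∧ (q : ℤ) ∣ fG (-w ^ 3) z ∧ ¬(q : ℤ) ^ 2 ∣ fG (-w ^ 3) z := by
  have e : fG (-1) z = 1 + z * (-92 + z * (3104 - 8384 * z + 9728 * z ^ 2 + 1024 * z ^ 3 +
      4096 * z ^ 4)) := by unfold fG; ring
  obtain ⟨q, hq, d⟩ := Nat.exists_prime_and_dvd (n := (fG (-1) z).natAbs) (by
    intro h
    rcases Int.natAbs_eq_iff.1 h with h | h
    · rw [e] at h
      have h1 : z * (-92 + z * (3104 - 8384 * z + 9728 * z ^ 2 + 1024 * z ^ 3 + 4096 * z ^ 4)) = 0 := by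
        push_cast at h; linarith
      have h2 := (mul_eq_zero.1 h1).resolve_left z0
      have h3 : z ∣ 92 := ⟨3104 - 8384 * z + 9728 * z ^ 2 + 1024 * z ^ 3 + 4096 * z ^ 4,
        by linear_combination -h2⟩
      exact absurd (hz.trans h3) (by norm_num)
    · rw [e] at h
      have h3 : z ∣ -2 := ⟨-92 + z * (3104 - 8384 * z + 9728 * z ^ 2 + 1024 * z ^ 3 + 4096 * z ^ 4),
        by push_cast at h; linear_combination -h⟩
      exact absurd (hz.trans h3) (by norm_num))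
  rw [← Int.natCast_dvd] at d
  have hp : Prime (q : ℤ) := Nat.prime_iff_prime_int.1 hq
  have nz : ¬(q : ℤ) ∣ z := by
    intro h
    rw [e] at d
    exact hp.not_dvd_one ((dvd_add_left (h.mul_right _)).1 d)
  by_cases h0 : (q : ℤ) ^ 2 ∣ fG (-1) z
  swap
  · exact ⟨q, 1, hq, by simp, nz, by simpa using d, by simpa using h0⟩
  obtain ⟨c, hc⟩ : ∃ c : ℤ, fG (-(1 + q * z) ^ 3) z =
      fG (-1) z + q * (-z * (3 + q * (3 * z + q * z ^ 2)) * fG' (-1) z) + (q : ℤ) ^ 2 * c := by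
    have t : ∀ x e : ℤ, fG (x + e) z = fG x z + e * fG' x z + e ^ 2 * (9728 * z ^ 4 +
        25152 * x * z ^ 3 + 8384 * e * z ^ 3 + 18624 * x ^ 2 * z ^ 2 + 12416 * x * e * z ^ 2 +
        3104 * e ^ 2 * z ^ 2 + 920 * x ^ 3 * z + 920 * x ^ 2 * e * z + 460 * x * e ^ 2 * z +
        92 * e ^ 3 * z + 15 * x ^ 4 + 20 * x ^ 3 * e + 15 * x ^ 2 * e ^ 2 + 6 * x * e ^ 3 + e ^ 4) := by
      intro x e; unfold fG fG'; ring
    rw [show -(1 + (q : ℤ) * z) ^ 3 = -1 + q * (-z * (3 + q * (3 * z + q * z ^ 2))) by ring, t,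
      mul_pow, mul_assoc ((q : ℤ) ^ 2), mul_assoc (q : ℤ)]
    exact ⟨_, rfl⟩
  refine ⟨q, 1 + q * z, hq, by simp, nz, ?_, ?_⟩
  · rw [hc]
    exact dvd_add (dvd_add d (dvd_mul_right _ _)) (Dvd.dvd.mul_right (dvd_pow_self _ two_ne_zero) _)
  · rw [hc]
    intro hd
    have h3 := (dvd_add_right h0).1 ((dvd_add_left (dvd_mul_right _ _)).1 hd)
    rw [sq, mul_dvd_mul_iff_left hp.ne_zero] at h3
    rcases hp.dvd_or_dvd h3 with h4 | h4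
    · rcases hp.dvd_or_dvd h4 with h5 | h5
      · exact nz ((dvd_neg).1 h5)
      · exact nz (((dvd_add_left (dvd_mul_right _ _)).1 h5).trans (Dvd.dvd.trans (by norm_num) hz))
    · exact (cop hp hz nz d).1 h4

section
variable {q : ℕ} [Fact q.Prime]

lemma nrm {a : ℤ} (h : ¬(q : ℤ) ∣ a) : ‖(a : ℚ_[q])‖ = 1 :=
  le_antisymm (Padic.norm_int_le_one a) (not_lt.1 (mt Padic.norm_intCast_lt_one_iff.1 h))

lemma par_of_sq {e ρ : ℚ} {a G : ℤ} (h : e * ρ ^ 2 = (a * G : ℤ)) (ha : ¬(q : ℤ) ∣ a)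
    (h1 : (q : ℤ) ∣ G) (h2 : ¬(q : ℤ) ^ 2 ∣ G) : par (e : ℚ_[q]) = 1 := by
  obtain ⟨m, rfl⟩ := h1
  have hm : ¬(q : ℤ) ∣ m := fun h => h2 (by rw [sq]; exact mul_dvd_mul_left _ h)
  have ne0 : ∀ x : ℚ_[q], ‖x‖ = 1 → x ≠ 0 := by rintro x h rfl; simp at h
  have q0 : (q : ℚ_[q]) ≠ 0 := by exact_mod_cast (Fact.out : q.Prime).ne_zero
  have a0 := ne0 _ (nrm ha)
  have m0 := ne0 _ (nrm hm)
  have h' : (e : ℚ_[q]) * (ρ : ℚ_[q]) ^ 2 = (a : ℚ_[q]) * ((q : ℚ_[q]) * (m : ℚ_[q])) := by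
    have := congrArg (Rat.cast (K := ℚ_[q])) h
    push_cast at this
    exact this
  have n0 : (e : ℚ_[q]) * (ρ : ℚ_[q]) ^ 2 ≠ 0 := by
    rw [h']; exact mul_ne_zero a0 (mul_ne_zero q0 m0)
  have pq : par (q : ℚ_[q]) = 1 := by simp [par]
  have := congrArg par h'
  rwa [par_mul (left_ne_zero_of_mul n0) (right_ne_zero_of_mul n0), par_sq, add_zero,
    par_mul a0 (mul_ne_zero q0 m0), par_mul q0 m0, par_unit (nrm ha), par_unit (nrm hm), pq,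
    zero_add, add_zero] at this

lemma dvd_of_sq {d r a G : ℤ} (h : d * r ^ 2 = a * G) (ha : ¬(q : ℤ) ∣ a)
    (h1 : (q : ℤ) ∣ G) (h2 : ¬(q : ℤ) ^ 2 ∣ G) : (q : ℤ) ∣ d := by
  by_contra hd
  have := par_of_sq (e := (d : ℚ)) (ρ := (r : ℚ)) (by exact_mod_cast h) ha h1 h2
  exact norm_ne_one this (by simpa using nrm hd)

theorem core {k n v w z : ℤ} (hk0 : ∀ x : ℚ, x ^ 3 + k ≠ 0) (ez : z = 8 * k * n ^ 6 * v ^ 3)
    (hz : 1446 ∣ z) (nz : ¬(q : ℤ) ∣ z) (h1 : (q : ℤ) ∣ fG (-w ^ 3) z)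
    (h2 : ¬(q : ℤ) ^ 2 ∣ fG (-w ^ 3) z) {e ρ : ℚ}
    (h : e * ρ ^ 2 = (-v * fD (-w ^ 3) z * fT (-w ^ 3) z * fG (-w ^ 3) z : ℤ)) :
    2 ≤ Module.rank ℤ (cv (k * e ^ 3)).Point := by
  have hp : Prime (q : ℤ) := Nat.prime_iff_prime_int.1 Fact.out
  obtain ⟨-, cD, cT, cx⟩ := cop hp hz nz h1
  have nd : ∀ a : ℤ, a ∣ z → ¬(q : ℤ) ∣ a := fun a ha hq => nz (hq.trans ha)
  have d2 := nd 2 (Dvd.dvd.trans (by norm_num) hz)
  have d3 := nd 3 (Dvd.dvd.trans (by norm_num) hz)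
  have dk := nd k ⟨8 * n ^ 6 * v ^ 3, by rw [ez]; ring⟩
  have dn := nd n ⟨8 * k * n ^ 5 * v ^ 3, by rw [ez]; ring⟩
  have dv := nd v ⟨8 * k * n ^ 6 * v ^ 2, by rw [ez]; ring⟩
  have dw : ¬(q : ℤ) ∣ w := fun hw => cx (dvd_neg.2 (dvd_pow hw three_ne_zero))
  have he : par (e : ℚ_[q]) = 1 := par_of_sq h (by
    intro hd
    rcases hp.dvd_or_dvd hd with hd | hd
    · rcases hp.dvd_or_dvd hd with hd | hd
      · exact dv (dvd_neg.1 hd)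
      · exact cD hd
    · exact cT hd) h1 h2
  have n2 : ‖(2 : ℚ_[q])‖ = 1 := by simpa using nrm d2
  have n3 : ‖(3 : ℚ_[q])‖ = 1 := by simpa using nrm d3
  have ne0 : ∀ a : ℤ, ¬(q : ℤ) ∣ a → (a : ℚ) ≠ 0 := by
    rintro a ha h0
    exact ha (by rw [Int.cast_eq_zero.1 h0]; exact dvd_zero _)
  have k0 := ne0 _ dk
  have n0 := ne0 _ dn
  have v0 := ne0 _ dv
  have z0 := ne0 _ nz
  have ez' : (z : ℚ) = 8 * k * n ^ 6 * v ^ 3 := by exact_mod_cast ez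
  refine family (k := k) (t := -w / (2 * n ^ 2 * v)) (s := -w ^ 3 / (4 * z))
    (ρ := ρ / (2 ^ 13 * n ^ 3 * v ^ 2 * z ^ 6)) (D := fD (-w ^ 3) z / (2 ^ 5 * z ^ 3))
    (T := fT (-w ^ 3) z / (2 ^ 6 * z ^ 4)) (G := fG (-w ^ 3) z / (2 ^ 12 * z ^ 6)) hk0 n2 n3
    (by simpa using nrm dk) he ?_ ?_ ?_ ?_ ?_ ?_ ?_ ?_
  · rw [ez']; field_simp; ring
  · unfold fD; push_cast; field_simp; ring
  · unfold fT; push_cast; field_simp; ring
  · unfold fG; push_cast; field_simp; ring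
  · push_cast
    rw [norm_div, norm_neg, norm_mul, norm_mul, norm_pow, n2, nrm dw, nrm dn, nrm dv]; norm_num
  · push_cast
    rw [norm_div, norm_mul, norm_pow, norm_pow, n2, nrm cD, nrm nz]; norm_num
  · push_cast
    rw [norm_div, norm_mul, norm_pow, norm_pow, n2, nrm cT, nrm nz]; norm_num
  · rw [div_pow, ← mul_div_assoc, h]
    push_cast
    generalize ((fD (-w ^ 3) z : ℤ) : ℚ) = A
    generalize ((fT (-w ^ 3) z : ℤ) : ℚ) = B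
    generalize ((fG (-w ^ 3) z : ℤ) : ℚ) = C
    have : (k : ℚ) = z / (8 * n ^ 6 * v ^ 3) := by rw [ez']; field_simp
    rw [this]
    field_simp
    ring

end

end Pool.Agent.FS.JZero
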