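import Mathlib

/-! Two-descent by `q`-adic valuations on `y^2 = x^3 + K`, and an independence criterion. -/

namespace Pool.Agent.FS.JZero

open WeierstrassCurve WeierstrassCurve.Affine

/-- The curve `y^2 = x^3 + K`. -/
def cv (K : ℚ) : WeierstrassCurve.Affine ℚ := ⟨0, 0, 0, 0, K⟩

lemma cv_eqn {K x y : ℚ} (h : (cv K).Nonsingular x y) : y ^ 2 = x ^ 3 + K := by
  have := (equation_iff _ _).1 h.left
  simp only [cv] at this
  linear_combination this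

lemma cv_negY (K x y : ℚ) : (cv K).negY x y = -y := by simp [cv, negY]

lemma cv_nonsing {K x y : ℚ} (hK : K ≠ 0) (h : y ^ 2 = x ^ 3 + K) : (cv K).Nonsingular x y := by
  have hD : (cv K).Δ ≠ 0 := by
    have : (cv K).Δ = -432 * K ^ 2 := by
      simp only [cv, WeierstrassCurve.Δ, b₂, b₄, b₆, b₈]; ring
    rw [this]; positivity
  rw [← equation_iff_nonsingular_of_Δ_ne_zero hD, equation_iff]
  simp only [cv]
  linear_combination h

lemma collinear {K x₁ y₁ x₂ y₂ : ℚ} (h₁ : (cv K).Nonsingular x₁ y₁)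
    (h₂ : (cv K).Nonsingular x₂ y₂) (hxy : ¬(x₁ = x₂ ∧ y₁ = (cv K).negY x₂ y₂)) :
    ∃ l n x₃ : ℚ, x₃ = (cv K).addX x₁ x₂ ((cv K).slope x₁ x₂ y₁ y₂) ∧ x₁ + x₂ + x₃ = l ^ 2 ∧
      x₁ * x₂ + x₁ * x₃ + x₂ * x₃ = -2 * l * n ∧ x₁ * x₂ * x₃ = n ^ 2 - K := by
  have h := addPolynomial_slope h₁.left h₂.left hxy
  rw [addPolynomial_eq, neg_inj, Cubic.prod_X_sub_C_eq, Cubic.toPoly_injective] at h
  set l := (cv K).slope x₁ x₂ y₁ y₂
  set x₃ := (cv K).addX x₁ x₂ l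
  have hb := congrArg Cubic.b h
  have hc := congrArg Cubic.c h
  have hd := congrArg Cubic.d h
  simp only [cv] at hb hc hd
  exact ⟨l, y₁ - l * x₁, x₃, rfl, by linear_combination hb, by linear_combination -hc,
    by linear_combination hd⟩

variable {q : ℕ} [Fact q.Prime]

/-- parity of the valuation of a `q`-adic number -/
noncomputable def par (z : ℚ_[q]) : ZMod 2 := ((z.valuation : ℤ) : ZMod 2)

lemma par_mul {x y : ℚ_[q]} (hx : x ≠ 0) (hy : y ≠ 0) : par (x * y) = par x + par y := by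
  simp only [par, Padic.valuation_mul hx hy, Int.cast_add]

lemma par_sq (x : ℚ_[q]) : par (x ^ 2) = 0 := by
  by_cases hx : x = 0
  · simp [hx, par]
  · rw [sq, par_mul hx hx]; exact CharTwo.add_self_eq_zero _

lemma par_unit {x : ℚ_[q]} (h : ‖x‖ = 1) : par x = 0 := by
  have hx : x ≠ 0 := by rintro rfl; simp at h
  have h1 : 0 ≤ x.valuation := (Padic.norm_le_one_iff_val_nonneg x).1 h.le
  have h2 : 0 ≤ x⁻¹.valuation := (Padic.norm_le_one_iff_val_nonneg _).1 (by simp [h])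
  rw [Padic.valuation_inv] at h2
  have : x.valuation = 0 := by omega
  simp [par, this]

lemma norm_ne_one {x : ℚ_[q]} (h : par x = 1) : ‖x‖ ≠ 1 := fun h1 => by
  rw [par_unit h1] at h; exact zero_ne_one h

lemma sub_ne {K : ℚ} (hK : ∀ x : ℚ, x ^ 3 + K ≠ 0) {θ : ℚ_[q]} (hθ : θ ^ 3 + K = 0) (x : ℚ) :
    (x : ℚ_[q]) - θ ≠ 0 := by
  intro h
  rw [← sub_eq_zero.1 h] at hθ
  exact hK x (by exact_mod_cast hθ)

/-- parity of the valuation of `x - θ` -/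
noncomputable def nuFun (K : ℚ) (θ : ℚ_[q]) : (cv K).Point → ZMod 2
  | .zero => 0
  | .some x _ _ => par ((x : ℚ_[q]) - θ)

/-- the descent homomorphism attached to a `q`-adic root of the cubic -/
noncomputable def nu (K : ℚ) (hK : ∀ x : ℚ, x ^ 3 + K ≠ 0) (θ : ℚ_[q]) (hθ : θ ^ 3 + K = 0) :
    (cv K).Point →+ ZMod 2 where
  toFun := nuFun K θ
  map_zero' := rfl
  map_add' := by
    rintro (_ | ⟨x₁, y₁, h₁⟩) (_ | ⟨x₂, y₂, h₂⟩)
    · simp [← Point.zero_def, nuFun]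
    · simp only [← Point.zero_def, zero_add]; simp [nuFun]
    · simp only [← Point.zero_def, add_zero]; simp [nuFun]
    by_cases hxy : x₁ = x₂ ∧ y₁ = (cv K).negY x₂ y₂
    · rw [Point.add_of_Y_eq hxy.1 hxy.2]
      simp only [nuFun, hxy.1]
      rw [CharTwo.add_self_eq_zero]
    · rw [Point.add_some hxy]
      obtain ⟨l, n, x₃, e0, e1, e2, e3⟩ := collinear h₁ h₂ hxy
      simp only [nuFun, ← e0]
      have a1 : (x₁ : ℚ_[q]) + x₂ + x₃ = l ^ 2 := by exact_mod_cast congrArg (Rat.cast (K := ℚ_[q])) e1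
      have a2 : (x₁ : ℚ_[q]) * x₂ + x₁ * x₃ + x₂ * x₃ = -2 * l * n := by
        exact_mod_cast congrArg (Rat.cast (K := ℚ_[q])) e2
      have a3 : (x₁ : ℚ_[q]) * x₂ * x₃ = n ^ 2 - K := by
        exact_mod_cast congrArg (Rat.cast (K := ℚ_[q])) e3
      have e : ((x₁ : ℚ_[q]) - θ) * (x₂ - θ) * (x₃ - θ) = (l * θ + n) ^ 2 := by
        linear_combination a3 - θ * a2 + θ ^ 2 * a1 - hθ
      have key : par ((x₁ : ℚ_[q]) - θ) + par ((x₂ : ℚ_[q]) - θ) + par ((x₃ : ℚ_[q]) - θ) = 0 := by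
        rw [← par_mul (sub_ne hK hθ _) (sub_ne hK hθ _),
          ← par_mul (mul_ne_zero (sub_ne hK hθ _) (sub_ne hK hθ _)) (sub_ne hK hθ _), e, par_sq]
      exact (CharTwo.add_eq_zero.1 key).symm

lemma nu_some {K : ℚ} (hK : ∀ x : ℚ, x ^ 3 + K ≠ 0) {θ : ℚ_[q]} (hθ : θ ^ 3 + K = 0) {x y : ℚ}
    (h : (cv K).Nonsingular x y) : nu K hK θ hθ (.some x y h) = par ((x : ℚ_[q]) - θ) := rfl

lemma no_two_torsion {K : ℚ} (hK : ∀ x : ℚ, x ^ 3 + K ≠ 0) (P : (cv K).Point) (h : P + P = 0) :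
    P = 0 := by
  rcases P with _ | ⟨x, y, hP⟩
  · rfl
  exfalso
  have h1 := eq_neg_of_add_eq_zero_left h
  rw [Point.neg_some, Point.some.injEq, cv_negY] at h1
  have hy : y = 0 := by linarith [h1.2]
  have := cv_eqn hP
  rw [hy] at this
  exact hK x (by linarith)

lemma indep {G : Type} [AddCommGroup G] (h2 : ∀ P : G, P + P = 0 → P = 0) (α β : G →+ ZMod 2)
    {P Q : G} (a1 : α P = 1) (a2 : α Q = 0) (b1 : β P = 0) (b2 : β Q = 1) :
    2 ≤ Module.rank ℤ G := by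
  have main : ∀ N : ℕ, ∀ m n : ℤ, m.natAbs + n.natAbs ≤ N → m • P + n • Q = 0 → m = 0 ∧ n = 0 := by
    intro N
    induction N with
    | zero => intro m n h _; constructor <;> omega
    | succ N ih =>
      intro m n hN h
      have z1 := congrArg α h
      have z2 := congrArg β h
      rw [map_add, map_zsmul, map_zsmul, map_zero] at z1 z2
      rw [a1, a2] at z1
      rw [b1, b2] at z2
      obtain ⟨m', hm⟩ : Even m := by
        rw [← ZMod.intCast_eq_zero_iff_even]; simpa using z1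
      obtain ⟨n', hn⟩ : Even n := by
        rw [← ZMod.intCast_eq_zero_iff_even]; simpa using z2
      by_cases h0 : m' = 0 ∧ n' = 0
      · constructor <;> omega
      have e : m • P + n • Q = (m' • P + n' • Q) + (m' • P + n' • Q) := by
        rw [hm, hn, add_zsmul, add_zsmul]; abel
      rw [e] at h
      exact absurd (ih m' n' (by omega) (h2 _ h)) h0
  have li : LinearIndependent ℤ ![P, Q] := by
    rw [LinearIndependent.pair_iff]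
    intro m n h
    exact main _ m n le_rfl h
  simpa using li.cardinal_le_rank

lemma norm_add_unit {x y : ℚ_[q]} (hx : ‖x‖ = 1) (hy : ‖y‖ < 1) : ‖x + y‖ = 1 := by
  rw [Padic.add_eq_max_of_ne (by rw [hx]; exact hy.ne'), hx, max_eq_left hy.le]

lemma norm_add_le {x y : ℚ_[q]} (hx : ‖x‖ ≤ 1) (hy : ‖y‖ ≤ 1) : ‖x + y‖ ≤ 1 :=
  (Padic.nonarchimedean x y).trans (max_le hx hy)

lemma norm_add_lt {x y : ℚ_[q]} (hx : ‖x‖ < 1) (hy : ‖y‖ < 1) : ‖x + y‖ < 1 :=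
  (Padic.nonarchimedean x y).trans_lt (max_lt hx hy)

lemma unit_of_cube {x k : ℚ_[q]} (hk : ‖k‖ = 1) (h : ‖x ^ 3 + k‖ < 1) : ‖x‖ = 1 := by
  have h1 : ‖-k + (x ^ 3 + k)‖ = 1 := norm_add_unit (by rwa [norm_neg]) h
  rw [show -k + (x ^ 3 + k) = x ^ 3 by ring, norm_pow] at h1
  exact (pow_eq_one_iff_of_nonneg (norm_nonneg _) three_ne_zero).1 h1

lemma lift_root {x k : ℚ_[q]} (h3 : ‖(3 : ℚ_[q])‖ = 1) (hk : ‖k‖ = 1) (h : ‖x ^ 3 + k‖ < 1) :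
    ∃ θ : ℚ_[q], θ ^ 3 + k = 0 ∧ ‖θ - x‖ < 1 := by
  have hx := unit_of_cube hk h
  let a : ℤ_[q] := ⟨x, hx.le⟩
  let c : ℤ_[q] := ⟨k, hk.le⟩
  let F : Polynomial ℤ_[q] := Polynomial.X ^ 3 + Polynomial.C c
  have e1 : ∀ z : ℤ_[q], F.aeval z = z ^ 3 + c := by intro z; simp [F]
  have e2 : F.derivative.aeval a = 3 * a ^ 2 := by simp [F]; norm_num
  have n2 : ‖F.derivative.aeval a‖ = 1 := by
    have b3 : ‖(3 : ℤ_[q])‖ = 1 := h3
    have ba : ‖a‖ = 1 := hx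
    rw [e2, norm_mul, norm_pow, b3, ba]
    norm_num
  have n1 : ‖F.aeval a‖ < ‖F.derivative.aeval a‖ ^ 2 := by
    rw [n2, e1, PadicInt.norm_def, one_pow]
    exact h
  obtain ⟨z, hz, hz2, -⟩ := hensels_lemma n1
  rw [n2] at hz2
  rw [e1] at hz
  refine ⟨z, ?_, ?_⟩
  · have : ((z ^ 3 + c : ℤ_[q]) : ℚ_[q]) = ((0 : ℤ_[q]) : ℚ_[q]) := by rw [hz]
    rw [PadicInt.coe_add, PadicInt.coe_pow, PadicInt.coe_zero] at this
    exact this
  · exact hz2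

lemma local_root {x k e y : ℚ_[q]} (h3 : ‖(3 : ℚ_[q])‖ = 1) (hk : ‖k‖ = 1) (he : par e = 1)
    (hx : ‖x‖ ≤ 1) (h0 : x ^ 3 + k ≠ 0) (h : e * y ^ 2 = x ^ 3 + k) :
    ∃ θ : ℚ_[q], θ ^ 3 + k = 0 ∧ ‖θ - x‖ < 1 ∧ par (x - θ) = 1 := by
  have e0 : e ≠ 0 := by rintro rfl; exact h0 (by rw [← h, zero_mul])
  have y0 : y ^ 2 ≠ 0 := by intro h1; exact h0 (by rw [← h, h1, mul_zero])
  have hp : par (x ^ 3 + k) = 1 := by rw [← h, par_mul e0 y0, he, par_sq, add_zero]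
  have hlt : ‖x ^ 3 + k‖ < 1 := lt_of_le_of_ne
    (norm_add_le (by rw [norm_pow]; exact pow_le_one₀ (norm_nonneg _) hx) hk.le) (norm_ne_one hp)
  obtain ⟨θ, h1, h2⟩ := lift_root h3 hk hlt
  have hx1 := unit_of_cube hk hlt
  have hu : ‖3 * x ^ 2 + (θ - x) * (3 * x + (θ - x))‖ = 1 := by
    refine norm_add_unit (by rw [norm_mul, norm_pow, h3, hx1]; norm_num) ?_
    rw [norm_mul]
    have : ‖3 * x + (θ - x)‖ ≤ 1 := norm_add_le (by rw [norm_mul, h3, hx1]; norm_num) h2.le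
    exact mul_lt_one_of_nonneg_of_lt_one_left (norm_nonneg _) h2 this
  have f : x ^ 3 + k = (x - θ) * (3 * x ^ 2 + (θ - x) * (3 * x + (θ - x))) := by
    linear_combination h1
  refine ⟨θ, h1, h2, ?_⟩
  have n1 : x - θ ≠ 0 := by intro h4; exact h0 (by rw [f, h4, zero_mul])
  have n2 : 3 * x ^ 2 + (θ - x) * (3 * x + (θ - x)) ≠ 0 := by
    intro h4; rw [h4] at hu; simp at hu
  rw [f, par_mul n1 n2, par_unit hu, add_zero] at hp
  exact hp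

theorem rank_two {k e x₁ y₁ x₂ y₂ : ℚ} (hk0 : ∀ x : ℚ, x ^ 3 + k ≠ 0)
    (h3 : ‖(3 : ℚ_[q])‖ = 1) (hk : ‖(k : ℚ_[q])‖ = 1) (he : par (e : ℚ_[q]) = 1)
    (e₁ : e * y₁ ^ 2 = x₁ ^ 3 + k) (e₂ : e * y₂ ^ 2 = x₂ ^ 3 + k)
    (n₁ : ‖(x₁ : ℚ_[q])‖ ≤ 1) (n₂ : ‖(x₂ : ℚ_[q])‖ ≤ 1) (n₃ : ‖(x₁ : ℚ_[q]) - x₂‖ = 1) :
    2 ≤ Module.rank ℤ (cv (k * e ^ 3)).Point := by
  have e0 : e ≠ 0 := by rintro rfl; exact hk0 x₁ (by rw [← e₁, zero_mul])
  have e0' : (e : ℚ_[q]) ≠ 0 := by exact_mod_cast e0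
  have hK : ∀ x : ℚ, x ^ 3 + k * e ^ 3 ≠ 0 := by
    intro x h
    refine hk0 (x / e) ?_
    field_simp
    linear_combination h
  have hK0 : k * e ^ 3 ≠ 0 := by simpa using hK 0
  obtain ⟨θ₁, r1, s1, t1⟩ := local_root (y := (y₁ : ℚ_[q])) h3 hk he n₁
    (by exact_mod_cast hk0 x₁) (by exact_mod_cast congrArg (Rat.cast (K := ℚ_[q])) e₁)
  obtain ⟨θ₂, r2, s2, t2⟩ := local_root (y := (y₂ : ℚ_[q])) h3 hk he n₂
    (by exact_mod_cast hk0 x₂) (by exact_mod_cast congrArg (Rat.cast (K := ℚ_[q])) e₂)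
  have R1 : (e * θ₁) ^ 3 + ((k * e ^ 3 : ℚ) : ℚ_[q]) = 0 := by
    push_cast; linear_combination (e : ℚ_[q]) ^ 3 * r1
  have R2 : (e * θ₂) ^ 3 + ((k * e ^ 3 : ℚ) : ℚ_[q]) = 0 := by
    push_cast; linear_combination (e : ℚ_[q]) ^ 3 * r2
  have val : ∀ (x : ℚ) (θ : ℚ_[q]), θ ^ 3 + (k : ℚ_[q]) = 0 →
      par (((e * x : ℚ) : ℚ_[q]) - (e : ℚ_[q]) * θ) = 1 + par ((x : ℚ_[q]) - θ) := by
    intro x θ hθ
    rw [Rat.cast_mul, ← mul_sub, par_mul e0' (sub_ne hk0 hθ x), he]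
  have u12 : ‖(x₁ : ℚ_[q]) - θ₂‖ = 1 := by
    rw [show (x₁ : ℚ_[q]) - θ₂ = (x₁ - x₂) + -(θ₂ - x₂) by ring]
    exact norm_add_unit n₃ (by rwa [norm_neg])
  have u21 : ‖(x₂ : ℚ_[q]) - θ₁‖ = 1 := by
    rw [show (x₂ : ℚ_[q]) - θ₁ = -(x₁ - x₂) + -(θ₁ - x₁) by ring]
    exact norm_add_unit (by rwa [norm_neg]) (by rwa [norm_neg])
  have p1 : (cv (k * e ^ 3)).Nonsingular (e * x₁) (e ^ 2 * y₁) :=
    cv_nonsing hK0 (by linear_combination e ^ 3 * e₁)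
  have p2 : (cv (k * e ^ 3)).Nonsingular (e * x₂) (e ^ 2 * y₂) :=
    cv_nonsing hK0 (by linear_combination e ^ 3 * e₂)
  refine indep (no_two_torsion hK) (nu _ hK _ R2) (nu _ hK _ R1) (P := .some _ _ p1)
    (Q := .some _ _ p2) ?_ ?_ ?_ ?_
  · rw [nu_some, val _ _ r2, par_unit u12, add_zero]
  · rw [nu_some, val _ _ r2, t2]; rfl
  · rw [nu_some, val _ _ r1, t1]; rfl
  · rw [nu_some, val _ _ r1, par_unit u21, add_zero]

end Pool.Agent.FS.JZero
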