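import Pool.Agent.FS.JZero.Desc

/-! Two independent points on a family of quadratic twists of `y^2 = x^3 + k`. -/

namespace Pool.Agent.FS.JZero

variable {q : ℕ} [Fact q.Prime]

lemma lt_of_par {x k e y : ℚ_[q]} (hk : ‖k‖ = 1) (he : par e = 1)
    (hx : ‖x‖ ≤ 1) (h0 : x ^ 3 + k ≠ 0) (h : e * y ^ 2 = x ^ 3 + k) : ‖x ^ 3 + k‖ < 1 := by
  have e0 : e ≠ 0 := by rintro rfl; exact h0 (by rw [← h, zero_mul])
  have y0 : y ^ 2 ≠ 0 := by intro h1; exact h0 (by rw [← h, h1, mul_zero])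
  have hp : par (x ^ 3 + k) = 1 := by rw [← h, par_mul e0 y0, he, par_sq, add_zero]
  exact lt_of_le_of_ne
    (norm_add_le (by rw [norm_pow]; exact pow_le_one₀ (norm_nonneg _) hx) hk.le) (norm_ne_one hp)

lemma isog {k e A B yA yB : ℚ} (hk0 : ∀ x : ℚ, x ^ 3 + k ≠ 0) (h2 : ‖(2 : ℚ_[q])‖ = 1)
    (h3 : ‖(3 : ℚ_[q])‖ = 1) (hk : ‖(k : ℚ_[q])‖ = 1) (he : par (e : ℚ_[q]) = 1)
    (eA : e * yA ^ 2 = A ^ 3 - 27 * k) (eB : e * yB ^ 2 = B ^ 3 + k)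
    (nA : ‖(A : ℚ_[q])‖ ≤ 1) (nB : ‖(B : ℚ_[q])‖ ≤ 1) (nAB : ‖(A : ℚ_[q]) + 3 * B‖ = 1) :
    2 ≤ Module.rank ℤ (cv (k * e ^ 3)).Point := by
  have h4 : ‖(4 : ℚ_[q])‖ = 1 := by
    rw [show (4 : ℚ_[q]) = 2 ^ 2 by norm_num, norm_pow, h2, one_pow]
  have h9 : ‖(9 : ℚ_[q])‖ = 1 := by
    rw [show (9 : ℚ_[q]) = 3 ^ 2 by norm_num, norm_pow, h3, one_pow]
  have k27 : ‖-(3 ^ 3 * (k : ℚ_[q]))‖ = 1 := by rw [norm_neg, norm_mul, norm_pow, h3, hk]; norm_num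
  have z0 : A ^ 3 + -(3 ^ 3 * k) ≠ 0 := fun h => hk0 (-A / 3) (by linear_combination (-1 / 27) * h)
  have hlt : ‖(A : ℚ_[q]) ^ 3 + -(3 ^ 3 * (k : ℚ_[q]))‖ < 1 :=
    lt_of_par (y := (yA : ℚ_[q])) k27 he nA (by exact_mod_cast z0) (by
      have : e * yA ^ 2 = A ^ 3 + -(3 ^ 3 * k) := by linear_combination eA
      exact_mod_cast congrArg (Rat.cast (K := ℚ_[q])) this)
  have uA : ‖(A : ℚ_[q])‖ = 1 := unit_of_cube k27 hlt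
  have A0' : (A : ℚ_[q]) ≠ 0 := by intro h; rw [h] at uA; simp at uA
  have A0 : A ≠ 0 := by exact_mod_cast A0'
  have small : ‖4 * ((A : ℚ_[q]) ^ 3 + -(3 ^ 3 * (k : ℚ_[q]))) / (9 * A ^ 2)‖ < 1 := by
    rw [norm_div, norm_mul, norm_mul, norm_pow, h4, h9, uA]
    simpa using hlt
  have d1 : (((A ^ 3 - 108 * k) / (9 * A ^ 2) : ℚ) : ℚ_[q]) - B =
      -((A + 3 * B) / 3) + 4 * ((A : ℚ_[q]) ^ 3 + -(3 ^ 3 * (k : ℚ_[q]))) / (9 * A ^ 2) := by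
    push_cast
    field_simp
    ring
  have n3 : ‖(((A ^ 3 - 108 * k) / (9 * A ^ 2) : ℚ) : ℚ_[q]) - B‖ = 1 := by
    rw [d1]
    exact norm_add_unit (by rw [norm_neg, norm_div, nAB, h3, div_one]) small
  have n1 : ‖(((A ^ 3 - 108 * k) / (9 * A ^ 2) : ℚ) : ℚ_[q])‖ ≤ 1 := by
    have := norm_add_le n3.le nB
    rwa [sub_add_cancel] at this
  refine rank_two (y₁ := yA * (A ^ 3 + 216 * k) / (27 * A ^ 3)) hk0 h3 hk he ?_ eB n1 nB n3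
  have : e * (yA * (A ^ 3 + 216 * k) / (27 * A ^ 3)) ^ 2 =
      (e * yA ^ 2) * ((A ^ 3 + 216 * k) / (27 * A ^ 3)) ^ 2 := by ring
  rw [this, eA]
  field_simp
  ring

theorem family {k t s e ρ D T G : ℚ} (hk0 : ∀ x : ℚ, x ^ 3 + k ≠ 0) (h2 : ‖(2 : ℚ_[q])‖ = 1)
    (h3 : ‖(3 : ℚ_[q])‖ = 1) (hk : ‖(k : ℚ_[q])‖ = 1) (he : par (e : ℚ_[q]) = 1)
    (hs : t ^ 3 = 4 * k * s) (hD : D = 2 * s ^ 3 - s ^ 2 + 7 * s + 1)
    (hT : T = 4 * s ^ 4 + 20 * s ^ 3 + 10 * s - 1)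
    (hG : G = s ^ 6 + 23 * s ^ 5 + 194 * s ^ 4 + 131 * s ^ 3 + 38 * s ^ 2 - s + 1)
    (nt : ‖(t : ℚ_[q])‖ = 1) (nD : ‖(D : ℚ_[q])‖ = 1) (nT : ‖(T : ℚ_[q])‖ = 1)
    (hρ : e * ρ ^ 2 = -k * D * T * G) : 2 ≤ Module.rank ℤ (cv (k * e ^ 3)).Point := by
  have h4 : ‖(4 : ℚ_[q])‖ = 1 := by
    rw [show (4 : ℚ_[q]) = 2 ^ 2 by norm_num, norm_pow, h2, one_pow]
  have hs' : (t : ℚ_[q]) ^ 3 = 4 * k * s := by exact_mod_cast congrArg (Rat.cast (K := ℚ_[q])) hs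
  have ns : ‖(s : ℚ_[q])‖ = 1 := by
    have := congrArg norm hs'
    rw [norm_pow, norm_mul, norm_mul, nt, h4, hk] at this
    linarith
  have ne0 : ∀ x : ℚ, ‖(x : ℚ_[q])‖ = 1 → x ≠ 0 := by rintro x h rfl; simp at h
  have t0 := ne0 _ nt
  have D0 := ne0 _ nD
  have s0 := ne0 _ ns
  have k0 := ne0 _ hk
  have ms : (s : ℚ_[q]) ∈ PadicInt.subring q := (PadicInt.mem_subring_iff q).2 ns.le
  obtain ⟨N1, hN1⟩ : ∃ N1 : ℚ, N1 = s ^ 4 - 10 * s ^ 3 - 6 * s ^ 2 + 4 * s - 1 := ⟨_, rfl⟩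
  obtain ⟨N2, hN2⟩ : ∃ N2 : ℚ, N2 = s ^ 3 + 10 * s ^ 2 + 2 * s + 2 := ⟨_, rfl⟩
  have n1 : ‖(N1 : ℚ_[q])‖ ≤ 1 := by
    rw [← PadicInt.mem_subring_iff q, hN1]
    push_cast
    apply_rules [add_mem, sub_mem, mul_mem, pow_mem, ofNat_mem, one_mem]
  have n2 : ‖(N2 : ℚ_[q])‖ ≤ 1 := by
    rw [← PadicInt.mem_subring_iff q, hN2]
    push_cast
    apply_rules [add_mem, sub_mem, mul_mem, pow_mem, ofNat_mem, one_mem]
  have i1 : -4 * s * N2 ^ 3 + D ^ 3 = -(T * G) := by rw [hN2, hD, hT, hG]; ring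
  have i2 : -4 * N1 ^ 3 - 27 * s ^ 2 * D ^ 3 = -((s - 2) ^ 2 * (T * G)) := by
    rw [hN1, hD, hT, hG]; ring
  have i3 : N1 + 3 * s * N2 = T := by rw [hN1, hN2, hT]; ring
  have eB : e * (ρ / D ^ 2) ^ 2 = (-t * N2 / D) ^ 3 + k := by
    have a1 : e * (ρ / D ^ 2) ^ 2 = (e * ρ ^ 2) / D ^ 4 := by ring
    have a2 : (-t * N2 / D) ^ 3 + k = (-(t ^ 3) * N2 ^ 3 + k * D ^ 3) / D ^ 3 := by field_simp
    rw [a1, a2, hρ, hs]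
    field_simp
    linear_combination -i1
  have eA : e * (ρ / D ^ 2 * ((s - 2) / s)) ^ 2 = (-4 * k * N1 / (t ^ 2 * D)) ^ 3 - 27 * k := by
    have a1 : e * (ρ / D ^ 2 * ((s - 2) / s)) ^ 2 = (e * ρ ^ 2) * (s - 2) ^ 2 / (D ^ 4 * s ^ 2) := by
      field_simp
    have a2 : (-4 * k * N1 / (t ^ 2 * D)) ^ 3 - 27 * k =
        (-64 * k ^ 3 * N1 ^ 3) / ((t ^ 3) ^ 2 * D ^ 3) - 27 * k := by field_simp; ring
    rw [a1, a2, hρ, hs]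
    field_simp
    linear_combination (-16) * i2
  have eAB : -4 * k * N1 / (t ^ 2 * D) + 3 * (-t * N2 / D) = -4 * k * T / (t ^ 2 * D) := by
    field_simp
    linear_combination (-4 * k) * i3 - 3 * N2 * hs
  refine isog hk0 h2 h3 hk he eA eB ?_ ?_ ?_
  · push_cast
    rw [norm_div, norm_mul, norm_mul, norm_mul, norm_neg, norm_pow, h4, hk, nt, nD]
    simpa using n1
  · push_cast
    rw [norm_div, norm_mul, norm_neg, nt, nD]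
    simpa using n2
  · have := congrArg (Rat.cast (K := ℚ_[q])) eAB
    rw [Rat.cast_add, Rat.cast_mul 3, Rat.cast_ofNat] at this
    rw [this]
    push_cast
    rw [norm_div, norm_mul, norm_mul, norm_mul, norm_neg, norm_pow, h4, hk, nt, nD, nT]
    norm_num

end Pool.Agent.FS.JZero
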