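import Pool.Agent.FS.JZero.Mark
import Pool.Agent.Lib.MP_458f0b_nt.Pois.PNTa

/-! The twists attached to pairs of large primes, and their count. -/

namespace Pool.Agent.FS.JZero

open Finset Filter

theorem pt {k : ℤ} (hk0 : ∀ x : ℚ, x ^ 3 + k ≠ 0) {M : ℕ} (hM : 0 < M) {ε : ℤ}
    (hε : ε = 1 ∨ ε = -1) : ∃ L C : ℕ, 0 < C ∧ ∀ u v : ℕ, u.Prime → v.Prime → L < u → u < v →
      u ≡ 338 [MOD 339] →
      ∃ d : ℤ, Squarefree d ∧ 0 < ε * d ∧ |d| ≤ C * (v : ℤ) ^ 40 ∧ (u : ℤ) ∣ d ∧ (v : ℤ) ∣ d ∧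
        IsUnit (d : ZMod (8 * M)) ∧ IsSquare (d : ZMod (8 * M)) ∧
        ∀ m : ℚ, m ≠ 0 → 2 ≤ Module.rank ℤ (cv (k * ((d : ℚ) / m ^ 2) ^ 3)).Point := by
  have k0 : k ≠ 0 := by rintro rfl; exact hk0 0 (by simp)
  obtain ⟨n, hn⟩ : ∃ n : ℤ, n = 723 * M := ⟨_, rfl⟩
  have n0 : 0 < n := by rw [hn]; positivity
  obtain ⟨z₀, hz₀⟩ : ∃ z₀ : ℤ, z₀ = 8 * k * n ^ 6 := ⟨_, rfl⟩
  have z00 : z₀ ≠ 0 := by rw [hz₀]; positivity
  have dz1 : 1446 ∣ z₀ := ⟨4 * k * n ^ 5 * M, by rw [hz₀, hn]; ring⟩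
  have dz2 : ((8 * M : ℕ) : ℤ) ∣ z₀ := ⟨k * n ^ 5 * 723, by rw [hz₀, hn]; push_cast; ring⟩
  obtain ⟨q, w₀, hq, hw₀, nz, g1, g2⟩ := aux dz1 z00
  have : Fact q.Prime := ⟨hq⟩
  have hp : Prime (q : ℤ) := Nat.prime_iff_prime_int.1 hq
  have q1 : (1 : ℤ) ≤ q := by exact_mod_cast hq.one_lt.le
  obtain ⟨Q, hQ⟩ : ∃ Q : ℤ, Q = |z₀| * (q : ℤ) ^ 2 := ⟨_, rfl⟩
  have az : 1 ≤ |z₀| := Int.one_le_abs z00
  have Q0 : 0 < Q := by rw [hQ]; positivity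
  have Qge : (q : ℤ) ≤ Q := by rw [hQ]; nlinarith
  have dQ1 : (q : ℤ) ^ 2 ∣ Q := by rw [hQ]; exact dvd_mul_left _ _
  have dQ2 : ((8 * M : ℕ) : ℤ) ∣ Q := by rw [hQ]; exact ((dvd_abs _ _).2 dz2).mul_right _
  have MQ : ((8 * M : ℕ) : ℤ) ≤ Q := Int.le_of_dvd Q0 dQ2
  obtain ⟨c, hc⟩ : ∃ c : ℤ, c = Q * (100000 * |z₀| + 5) := ⟨_, rfl⟩
  have c0 : 0 < c := by rw [hc]; positivity
  have zQ : |z₀| ≤ Q := Int.le_of_dvd Q0 (by rw [hQ]; exact dvd_mul_right _ _)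
  refine ⟨Q.toNat + 10 ^ 9, (10 ^ 9 * (c ^ 3 + |z₀|) ^ 13).toNat, ?_, ?_⟩
  · rw [Int.lt_toNat]; push_cast; positivity
  intro u v hu hv hL huv hum
  have Qu : Q < u := by omega
  have Qv : Q < v := by omega
  have ub : 10 ^ 9 < u := by omega
  have v1 : (1 : ℤ) ≤ v := by omega
  have hpu : Prime (u : ℤ) := Nat.prime_iff_prime_int.1 hu
  have hpv : Prime (v : ℤ) := Nat.prime_iff_prime_int.1 hv
  have nqv : ¬(q : ℤ) ∣ v := by
    intro h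
    rw [Int.natCast_dvd_natCast, Nat.prime_dvd_prime_iff_eq hq hv] at h
    rw [h] at Qge
    omega
  have nuv : ¬(u : ℤ) ∣ v := by
    intro h
    rw [Int.natCast_dvd_natCast, Nat.prime_dvd_prime_iff_eq hu hv] at h
    omega
  obtain ⟨z, hz⟩ : ∃ z : ℤ, z = 8 * k * n ^ 6 * v ^ 3 := ⟨_, rfl⟩
  have hz' : z = z₀ * v ^ 3 := by rw [hz, hz₀]
  have nuz : ¬(u : ℤ) ∣ z := by
    rw [hz']
    intro h
    rcases hpu.dvd_or_dvd h with h | h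
    · exact not_dvd_small (by omega) (by omega) ((dvd_abs _ _).2 h)
    · exact nuv (hpu.dvd_of_dvd_pow h)
  obtain ⟨w, wm, D1, D2, nvw, wl, wu⟩ := choose_w (K := 100000 * |z₀|) (a := w₀ * v) hu hv ub hum huv
    Q0 Qu (by positivity) nuz hε
  have Kv : 0 < 100000 * |z₀| * (v : ℤ) := by positivity
  have hs : ε * fP (-w ^ 3) z < 0 := by
    refine sgn_w hε (by linarith) ?_
    have a1 : (100000 * |z₀| * (v : ℤ)) ^ 3 ≤ (ε * w) ^ 3 := by gcongr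
    have a2 : 100000 * |z₀| ≤ (100000 * |z₀|) ^ 3 := le_self_pow₀ (by omega) three_ne_zero
    have a3 : 100000 * |z₀| * (v : ℤ) ^ 3 ≤ (100000 * |z₀|) ^ 3 * (v : ℤ) ^ 3 := by gcongr
    rw [hz', abs_mul, abs_of_pos (by positivity : 0 < (v : ℤ) ^ 3)]
    rw [mul_pow] at a1
    linarith
  have gm : fG (-w ^ 3) z ≡ (v : ℤ) ^ 18 * fG (-w₀ ^ 3) z₀ [ZMOD (q : ℤ) ^ 2] := by
    have h1 : -w ^ 3 ≡ -(w₀ * v) ^ 3 [ZMOD (q : ℤ) ^ 2] := ((wm.of_dvd dQ1).pow 3).neg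
    have h2 := fG_congr z h1
    have h3 : fG (-(w₀ * v) ^ 3) z = (v : ℤ) ^ 18 * fG (-w₀ ^ 3) z₀ := by
      rw [hz']; unfold fG; ring
    rwa [h3] at h2
  have G1 : (q : ℤ) ∣ fG (-w ^ 3) z :=
    ((gm.of_dvd (dvd_pow_self _ two_ne_zero)).dvd_iff).2 (g1.mul_left _)
  have G2 : ¬(q : ℤ) ^ 2 ∣ fG (-w ^ 3) z := fun h =>
    g2 (hp.pow_dvd_of_dvd_mul_left 2 (fun h1 => nqv (hp.dvd_of_dvd_pow h1))
      ((gm.dvd_iff).1 h))
  have nz' : ¬(q : ℤ) ∣ z := by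
    rw [hz']
    exact fun h => (hp.dvd_or_dvd h).elim nz (fun h1 => nqv (hp.dvd_of_dvd_pow h1))
  obtain ⟨d, s, d1, d2, s0, d3, d4⟩ := sq_part (G := -v * fP (-w ^ 3) z) hε (by nlinarith)
  have um : -v * fP (-w ^ 3) z ≡ ((v : ℤ) ^ 20) ^ 2 [ZMOD (8 * M : ℕ)] := by
    have h1 : w₀ ≡ 1 [ZMOD (8 * M : ℕ)] := (Int.modEq_iff_dvd.2 (dz2.trans hw₀)).symm
    have h2 : w ≡ v [ZMOD (8 * M : ℕ)] := by
      have := (wm.of_dvd dQ2).trans (h1.mul_right v)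
      rwa [one_mul] at this
    have h3 : z ≡ 0 [ZMOD (8 * M : ℕ)] := by
      rw [hz']; exact Int.modEq_zero_iff_dvd.2 (dz2.mul_right _)
    have h4 := (fP_congr (h2.pow 3).neg h3).mul_left (-v)
    rwa [fP_zero, show -(v : ℤ) * (-(v : ℤ) ^ 3) ^ 13 = ((v : ℤ) ^ 20) ^ 2 by ring] at h4
  have um' : (d : ZMod (8 * M)) * (s : ZMod (8 * M)) ^ 2 = ((v : ZMod (8 * M)) ^ 20) ^ 2 := by
    rw [← d3] at um
    have := (ZMod.intCast_eq_intCast_iff _ _ _).2 um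
    push_cast at this
    exact this
  have uv : IsUnit (v : ZMod (8 * M)) := by
    rw [ZMod.isUnit_iff_coprime]
    exact (Nat.coprime_of_lt_prime (by omega) (by omega) hv)
  have ud : IsUnit ((d : ZMod (8 * M)) * (s : ZMod (8 * M)) ^ 2) := um' ▸ (uv.pow 20).pow 2
  refine ⟨d, d1, d2, d4.trans ?_, ?_, ?_, isUnit_of_mul_isUnit_left ud, ?_, ?_⟩
  · have w1 : |w| ≤ c * v := by
      rw [hc, abs_le]
      rcases hε with rfl | rfl <;> constructor <;> linarith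
    have p1 : 0 ≤ c ^ 3 * (v : ℤ) ^ 3 := by positivity
    have p2 : 0 ≤ |z₀| * (v : ℤ) ^ 3 := by positivity
    have b1 : |-w ^ 3| ≤ (c ^ 3 + |z₀|) * v ^ 3 := by
      have : |w| ^ 3 ≤ (c * v) ^ 3 := by gcongr
      rw [abs_neg, abs_pow]
      nlinarith
    have b2 : |z| ≤ (c ^ 3 + |z₀|) * v ^ 3 := by
      rw [hz', abs_mul, abs_of_pos (by positivity : 0 < (v : ℤ) ^ 3)]
      nlinarith
    have := size b1 b2
    rw [Int.toNat_of_nonneg (by positivity), abs_mul, abs_neg, abs_of_pos (by omega : (0 : ℤ) < v)]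
    calc (v : ℤ) * |fP (-w ^ 3) z| ≤ v * (10 ^ 9 * ((c ^ 3 + |z₀|) * v ^ 3) ^ 13) := by gcongr
      _ = _ := by ring
  · have : Fact u.Prime := ⟨hu⟩
    obtain ⟨-, c2, c3, -⟩ := copD hpu (by exact_mod_cast ub) nuz D1
    refine dvd_of_sq (r := s) (a := -v * fT (-w ^ 3) z * fG (-w ^ 3) z) (G := fD (-w ^ 3) z)
      (by rw [d3, fP]; ring) ?_ D1 D2
    intro h
    rcases hpu.dvd_or_dvd h with h | h
    · rcases hpu.dvd_or_dvd h with h | h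
      · exact nuv (dvd_neg.1 h)
      · exact c2 h
    · exact c3 h
  · have : Fact v.Prime := ⟨hv⟩
    refine dvd_of_sq (r := s) (a := -fP (-w ^ 3) z) (G := v) (by rw [d3]; ring) ?_ dvd_rfl ?_
    · intro h
      have h3 : z ≡ 0 [ZMOD v] := Int.modEq_zero_iff_dvd.2 ⟨z₀ * v ^ 2, by rw [hz']; ring⟩
      have h4 := fP_congr (Int.ModEq.refl (-w ^ 3)) h3
      rw [fP_zero] at h4
      have h5 := (h4.dvd_iff).1 (dvd_neg.1 h)
      exact nvw (hpv.dvd_of_dvd_pow (dvd_neg.1 (hpv.dvd_of_dvd_pow h5)))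
    · intro h
      have := Int.le_of_dvd (by omega) h
      have v2 : (2 : ℤ) ≤ v := by exact_mod_cast hv.two_le
      nlinarith
  · obtain ⟨u, hu⟩ := (isUnit_pow_iff two_ne_zero).1 (isUnit_of_mul_isUnit_right ud)
    refine ⟨(v : ZMod (8 * M)) ^ 20 * (u⁻¹ : (ZMod (8 * M))ˣ), ?_⟩
    have i1 : (s : ZMod (8 * M)) * (u⁻¹ : (ZMod (8 * M))ˣ) = 1 := by rw [← hu]; simp
    linear_combination ((u⁻¹ : (ZMod (8 * M))ˣ) : ZMod (8 * M)) ^ 2 * um' -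
      (d : ZMod (8 * M)) * ((s : ZMod (8 * M)) * (u⁻¹ : (ZMod (8 * M))ˣ) + 1) * i1
  · intro m hm
    refine core (q := q) (ρ := m * s) hk0 hz (hz' ▸ dz1.mul_right _) nz' G1 G2 ?_
    have : ((d * s ^ 2 : ℤ) : ℚ) =
        (-v * fD (-w ^ 3) z * fT (-w ^ 3) z * fG (-w ^ 3) z : ℤ) := by
      rw [d3, fP]; congr 1; ring
    rw [← this]
    push_cast
    field_simp

lemma few {H : ℕ} {d : ℤ} (hd : d ≠ 0) (hH : d.natAbs ≤ H ^ 41) :
    (d.natAbs.primeFactors.filter (fun p => H < p ^ 2)).card ≤ 81 := by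
  set F := d.natAbs.primeFactors.filter (fun p => H < p ^ 2) with hF
  have h1 : ∏ p ∈ F, p ≤ H ^ 41 := by
    refine le_trans (Nat.le_of_dvd (Int.natAbs_pos.2 hd) ?_) hH
    exact (prod_dvd_prod_of_subset _ _ _ (filter_subset _ _)).trans (Nat.prod_primeFactors_dvd _)
  have h2 : (H + 1) ^ F.card ≤ ∏ p ∈ F, p ^ 2 :=
    pow_card_le_prod F _ _ (fun p hp => (mem_filter.1 hp).2)
  rw [prod_pow] at h2
  have h3 : (H + 1) ^ F.card < (H + 1) ^ 82 :=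
    calc (H + 1) ^ F.card ≤ (H ^ 41) ^ 2 := h2.trans (Nat.pow_le_pow_left h1 2)
      _ = H ^ 82 := by ring
      _ < (H + 1) ^ 82 := Nat.pow_lt_pow_left (Nat.lt_succ_self H) (by norm_num)
  have hH0 : 0 < H := by
    rcases Nat.eq_zero_or_pos H with h | h
    · rw [h] at hH; simp at hH; exact absurd hH hd
    · exact h
  have := (Nat.pow_lt_pow_iff_right (by omega)).1 h3
  omega

lemma many : ∀ᶠ H : ℕ in atTop, (H : ℝ) / (448 * Real.log H) ≤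
    (((Icc 1 H).filter (fun p => p.Prime ∧ H < p ^ 2 ∧ p ≡ 338 [MOD 339])).card : ℝ) := by
  filter_upwards [Pool.Agent.Lib.MP_458f0b_nt.Pois.pnt_unif 339 (by norm_num) 338 (by norm_num)
    (1 / 448) (by norm_num), eventually_ge_atTop 2] with H h1 h2
  have h4 := (abs_le.1 (h1 H le_rfl)).1
  have hx : (1 : ℝ) < H := by exact_mod_cast h2
  have hl : 0 < Real.log H := Real.log_pos hx
  have h5 : Nat.totient 339 = 224 := by
    rw [show 339 = 3 * 113 by norm_num, Nat.totient_mul (by norm_num),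
      Nat.totient_prime (by norm_num), Nat.totient_prime (by norm_num)]
  rw [h5] at h4
  rw [div_le_iff₀ (by positivity)]
  push_cast at h4
  linarith

open Classical in
lemma count_nat (P : ℤ → Prop) {L C : ℕ}
    (h : ∀ u v : ℕ, u.Prime → v.Prime → L < u → u < v → u ≡ 338 [MOD 339] →
      ∃ d : ℤ, d ≠ 0 ∧ P d ∧ |d| ≤ C * (v : ℤ) ^ 40 ∧ (u : ℤ) ∣ d ∧ (v : ℤ) ∣ d) :
    ∀ᶠ H : ℕ in atTop, ((H : ℝ) / (448 * Real.log H)) ^ 2 / 2 ≤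
      6561 * (((Icc (-(C * (H : ℤ) ^ 40)) (C * (H : ℤ) ^ 40)).filter P).card : ℝ) := by
  have t1 : ∀ᶠ x : ℝ in atTop, ‖Real.log x‖ ≤ (1 / 896) * ‖x‖ :=
    Real.isLittleO_log_id_atTop.bound (by positivity)
  filter_upwards [many, tendsto_natCast_atTop_atTop.eventually t1, eventually_ge_atTop 3,
    eventually_ge_atTop C, eventually_ge_atTop (L ^ 2)] with H hr h2 h3 hC hL
  have hH : (3 : ℝ) ≤ H := by exact_mod_cast h3
  have hl : 0 < Real.log H := Real.log_pos (by linarith)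
  rw [Real.norm_of_nonneg hl.le, Real.norm_of_nonneg (by linarith)] at h2
  set b : ℝ := (H : ℝ) / (448 * Real.log H) with hb
  have hb2 : 2 ≤ b := by
    rw [hb, le_div_iff₀ (by positivity)]
    linarith
  set S' := (Icc 1 H).filter (fun p => p.Prime ∧ H < p ^ 2 ∧ p ≡ 338 [MOD 339]) with hS'
  set A := (Icc (-(C * (H : ℤ) ^ 40)) (C * (H : ℤ) ^ 40)).filter P with hA
  set F : ℤ → Finset ℕ := fun d => d.natAbs.primeFactors.filter (fun p => H < p ^ 2) with hF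
  have key : ∀ u ∈ S', ∀ v ∈ S', u < v → ∃ d ∈ A.erase 0, u ∈ F d ∧ v ∈ F d := by
    intro u hu v hv huv
    simp only [hS', mem_filter, mem_Icc] at hu hv
    obtain ⟨-, hu2, hu3, hu4⟩ := hu
    obtain ⟨⟨-, hv1⟩, hv2, hv3, -⟩ := hv
    obtain ⟨d, d0, dP, dC, du, dv⟩ := h u v hu2 hv2
      (lt_of_pow_lt_pow_left₀ 2 (Nat.zero_le _) (lt_of_le_of_lt hL hu3)) huv hu4
    have hvH : (v : ℤ) ≤ H := by exact_mod_cast hv1
    have : |d| ≤ C * (H : ℤ) ^ 40 := dC.trans (by gcongr)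
    refine ⟨d, mem_erase.2 ⟨d0, mem_filter.2 ⟨mem_Icc.2 (abs_le.1 this), dP⟩⟩, ?_, ?_⟩
    · exact mem_filter.2 ⟨Nat.mem_primeFactors.2 ⟨hu2, Int.natCast_dvd.1 du, by omega⟩, hu3⟩
    · exact mem_filter.2 ⟨Nat.mem_primeFactors.2 ⟨hv2, Int.natCast_dvd.1 dv, by omega⟩, hv3⟩
  have sub : S'.offDiag ⊆ (A.erase 0).biUnion (fun d => F d ×ˢ F d) := by
    rintro ⟨u, v⟩ huv
    obtain ⟨hu, hv, hne⟩ := mem_offDiag.1 huv
    rw [mem_biUnion]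
    rcases lt_or_gt_of_ne hne with hlt | hlt
    · obtain ⟨d, hd, a1, a2⟩ := key u hu v hv hlt
      exact ⟨d, hd, mem_product.2 ⟨a1, a2⟩⟩
    · obtain ⟨d, hd, a1, a2⟩ := key v hv u hu hlt
      exact ⟨d, hd, mem_product.2 ⟨a2, a1⟩⟩
  have c1 : S'.offDiag.card ≤ (A.erase 0).card * 6561 := by
    refine (card_le_card sub).trans (card_biUnion_le_card_mul _ _ _ ?_)
    intro d hd
    obtain ⟨d0, hd⟩ := mem_erase.1 hd
    have h1 : |d| ≤ C * (H : ℤ) ^ 40 := abs_le.2 (mem_Icc.1 (mem_filter.1 hd).1)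
    have h2 : d.natAbs ≤ H ^ 41 := by
      have hC' : (C : ℤ) ≤ H := by exact_mod_cast hC
      have : |d| ≤ (H : ℤ) ^ 41 := h1.trans (by rw [pow_succ' _ 40]; gcongr)
      rw [← Int.natCast_natAbs] at this
      exact_mod_cast this
    have := few d0 h2
    rw [card_product]
    exact Nat.mul_le_mul this this
  have c2 : S'.card * S'.card ≤ A.card * 6561 + S'.card := by
    rw [offDiag_card] at c1
    have := card_erase_le (s := A) (a := 0)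
    omega
  have c3 : (S'.card : ℝ) * S'.card ≤ A.card * 6561 + S'.card := by exact_mod_cast c2
  nlinarith

theorem count (P : ℤ → Prop) {L C : ℕ} (hC : 0 < C)
    (h : ∀ u v : ℕ, u.Prime → v.Prime → L < u → u < v → u ≡ 338 [MOD 339] →
      ∃ d : ℤ, d ≠ 0 ∧ P d ∧ |d| ≤ C * (v : ℤ) ^ 40 ∧ (u : ℤ) ∣ d ∧ (v : ℤ) ∣ d) :
    ∃ c : ℝ, 0 < c ∧ ∀ᶠ D : ℝ in atTop, c * D ^ (1 / 20 : ℝ) / Real.log D ^ 2 ≤
      (({d : ℤ | |(d : ℝ)| ≤ D ∧ P d}).ncard : ℝ) := by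
  classical
  have hC' : (1 : ℝ) ≤ C := by exact_mod_cast hC
  have tt : Tendsto (fun D : ℝ => ⌊(D / C) ^ (1 / 40 : ℝ)⌋₊) atTop atTop :=
    tendsto_nat_floor_atTop.comp ((tendsto_rpow_atTop (by norm_num)).comp
      (tendsto_id.atTop_div_const (by linarith)))
  refine ⟨1 / (6561 * 8 * 448 ^ 2 * C), by positivity, ?_⟩
  filter_upwards [tt.eventually (count_nat P h), tt.eventually_ge_atTop 2,
    eventually_ge_atTop 1] with D h1 h2 hD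
  set y : ℝ := (D / C) ^ (1 / 40 : ℝ) with hy
  set H : ℕ := ⌊y⌋₊ with hH
  have hDC : 0 ≤ D / C := by positivity
  have y0 : 0 ≤ y := Real.rpow_nonneg hDC _
  have y8 : y ^ 40 = D / C := by
    rw [hy, ← Real.rpow_natCast, ← Real.rpow_mul hDC]; norm_num
  have hH2 : (2 : ℝ) ≤ H := by exact_mod_cast h2
  have Hy : (H : ℝ) ≤ y := Nat.floor_le y0
  have yH : y ≤ 2 * H := by linarith [Nat.lt_floor_add_one y]
  have CH : (C : ℝ) * (H : ℝ) ^ 40 ≤ D := by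
    have : (H : ℝ) ^ 40 ≤ D / C := y8 ▸ pow_le_pow_left₀ (by linarith) Hy 40
    rwa [le_div_iff₀' (by linarith)] at this
  have HD : (H : ℝ) ≤ D := by
    have : (H : ℝ) ≤ (H : ℝ) ^ 40 := le_self_pow₀ (by linarith) (by norm_num)
    nlinarith
  have hl : 0 < Real.log H := Real.log_pos (by linarith)
  have hl2 : Real.log H ≤ Real.log D := Real.log_le_log (by linarith) HD
  have D4 : D ^ (1 / 20 : ℝ) ≤ 4 * C * (H : ℝ) ^ 2 := by
    have e : D ^ (1 / 20 : ℝ) = (C : ℝ) ^ (1 / 20 : ℝ) * y ^ 2 := by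
      rw [hy, ← Real.rpow_natCast, ← Real.rpow_mul hDC,
        show (1 / 40 : ℝ) * (2 : ℕ) = 1 / 20 by norm_num, ← Real.mul_rpow (by linarith) hDC]
      congr 1; field_simp
    have e2 : (C : ℝ) ^ (1 / 20 : ℝ) ≤ C := by
      simpa using Real.rpow_le_rpow_of_exponent_le hC' (by norm_num : (1 / 20 : ℝ) ≤ 1)
    rw [e]
    calc (C : ℝ) ^ (1 / 20 : ℝ) * y ^ 2 ≤ C * (2 * H) ^ 2 := by gcongr
      _ = _ := by ring
  have fin : ({d : ℤ | |(d : ℝ)| ≤ D ∧ P d}).Finite := by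
    refine (Set.finite_Icc (-⌈D⌉) ⌈D⌉).subset ?_
    rintro d ⟨hd, -⟩
    have : |d| ≤ ⌈D⌉ := by exact_mod_cast (show ((|d| : ℤ) : ℝ) ≤ (⌈D⌉ : ℤ) by
      push_cast; exact hd.trans (Int.le_ceil D))
    exact abs_le.1 this
  have c1 : ((Icc (-(C * (H : ℤ) ^ 40)) (C * (H : ℤ) ^ 40)).filter P).card ≤
      ({d : ℤ | |(d : ℝ)| ≤ D ∧ P d}).ncard := by
    rw [← Set.ncard_coe_finset]
    refine Set.ncard_le_ncard ?_ fin
    intro d hd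
    obtain ⟨a1, a2⟩ := mem_filter.1 (mem_coe.1 hd)
    refine ⟨le_trans ?_ CH, a2⟩
    exact_mod_cast abs_le.2 (mem_Icc.1 a1)
  have c2 : (((Icc (-(C * (H : ℤ) ^ 40)) (C * (H : ℤ) ^ 40)).filter P).card : ℝ) ≤
      ({d : ℤ | |(d : ℝ)| ≤ D ∧ P d}).ncard := by exact_mod_cast c1
  have c3 : 1 / (6561 * 8 * 448 ^ 2 * C) * D ^ (1 / 20 : ℝ) / Real.log D ^ 2 ≤
      ((H : ℝ) / (448 * Real.log H)) ^ 2 / 2 / 6561 :=
    calc 1 / (6561 * 8 * 448 ^ 2 * C) * D ^ (1 / 20 : ℝ) / Real.log D ^ 2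
        ≤ 1 / (6561 * 8 * 448 ^ 2 * C) * (4 * C * (H : ℝ) ^ 2) / Real.log H ^ 2 := by gcongr
      _ = _ := by field_simp; ring
  linarith

end Pool.Agent.FS.JZero
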