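import Pool.Agent.FS.JZero.Pt

/-! A second prime divisor: the cubic factor has a simple root modulo primes `u = -1 mod 339`. -/

namespace Pool.Agent.FS.JZero

/-- derivative of the cubic factor -/
def fD' (x z : ℤ) : ℤ := 3 * x ^ 2 - 4 * x * z + 56 * z ^ 2

lemma fD_congr {m x x' : ℤ} (z : ℤ) (hx : x ≡ x' [ZMOD m]) : fD x z ≡ fD x' z [ZMOD m] := by
  unfold fD; gcongr

lemma not_dvd_small {u R : ℤ} (h0 : 0 < R) (h : R < u) : ¬u ∣ R := fun hd =>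
  absurd (Int.le_of_dvd h0 hd) (not_le.2 h)

lemma copD {p x z : ℤ} (hp : Prime p) (hb : 10 ^ 9 < p) (h : ¬p ∣ z) (hD : p ∣ fD x z) :
    ¬p ∣ fD' x z ∧ ¬p ∣ fT x z ∧ ¬p ∣ fG x z ∧ ¬p ∣ x := by
  have key : ∀ (R : ℤ) (m : ℕ), 0 < R → R ≤ 10 ^ 9 → ¬p ∣ R * z ^ m := by
    intro R m h0 hR hd
    rcases hp.dvd_or_dvd hd with h1 | h1
    · exact not_dvd_small h0 (by linarith) h1
    · exact h (hp.dvd_of_dvd_pow h1)
  refine ⟨fun h1 => key 97632 4 (by norm_num) (by norm_num) ?_,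
    fun h1 => key 93312 6 (by norm_num) (by norm_num) ?_,
    fun h1 => key 859963392 8 (by norm_num) (by norm_num) ?_,
    fun h1 => key 32 3 (by norm_num) (by norm_num) ?_⟩
  · have e : 97632 * z ^ 4 = ((314) * x ^ 0 * z ^ 1 + (-123) * x ^ 1 * z ^ 0) * fD x z + ((1564) * x ^ 0 * z ^ 2 + (-132) * x ^ 1 * z ^ 1 + (41) * x ^ 2 * z ^ 0) * fD' x z := by unfold fD fD'; ring
    rw [e]; exact dvd_add (hD.mul_left _) (h1.mul_left _)
  · have e : 93312 * z ^ 6 = ((1760) * x ^ 0 * z ^ 3 + (-136) * x ^ 1 * z ^ 2 + (193) * x ^ 2 * z ^ 1 + (10) * x ^ 3 * z ^ 0) * fD x z + ((-578) * x ^ 0 * z ^ 2 + (27) * x ^ 1 * z ^ 1 + (-10) * x ^ 2 * z ^ 0) * fT x z := by unfold fD fT; ring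
    rw [e]; exact dvd_add (hD.mul_left _) (h1.mul_left _)
  · have e : 859963392 * z ^ 8 = (127816 * z ^ 2 - 5682 * x * z + 2225 * x ^ 2) * fG x z +
        (10513408 * z ^ 5 - 13581056 * x * z ^ 4 - 14898752 * x ^ 2 * z ^ 3 -
        6793808 * x ^ 3 * z ^ 2 - 203468 * x ^ 4 * z - 2225 * x ^ 5) * fD x z := by
      unfold fG fD; ring
    rw [e]; exact dvd_add (h1.mul_left _) (hD.mul_left _)
  · have e : 32 * z ^ 3 = fD x z - x * (x ^ 2 - 2 * x * z + 56 * z ^ 2) := by unfold fD; ring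
    rw [e]; exact dvd_sub hD (h1.mul_right _)

lemma shift {p w t z : ℤ} (hp : Prime p) (hb : 10 ^ 9 < p) (h : ¬p ∣ z)
    (h1 : p ^ 2 ∣ fD (-w ^ 3) z) (h2 : p ^ 2 ∣ fD (-(w + p * t) ^ 3) z) : p ∣ t := by
  obtain ⟨c1, -, -, c4⟩ := copD hp hb h ((dvd_pow_self _ two_ne_zero).trans h1)
  obtain ⟨c, hc⟩ : ∃ c : ℤ, fD (-(w + p * t) ^ 3) z = fD (-w ^ 3) z +
      p * (-t * (3 * w ^ 2 + p * (3 * w * t + p * t ^ 2)) * fD' (-w ^ 3) z) + p ^ 2 * c := by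
    have e : ∀ x e : ℤ, fD (x + e) z = fD x z + e * fD' x z + e ^ 2 * (3 * x - 2 * z + e) := by
      intro x e; unfold fD fD'; ring
    rw [show -(w + p * t) ^ 3 = -w ^ 3 + p * (-t * (3 * w ^ 2 + p * (3 * w * t + p * t ^ 2))) by ring,
      e, mul_pow, mul_assoc (p ^ 2), mul_assoc p]
    exact ⟨_, rfl⟩
  rw [hc] at h2
  have h3 := (dvd_add_right h1).1 ((dvd_add_left (dvd_mul_right _ _)).1 h2)
  rw [sq, mul_dvd_mul_iff_left hp.ne_zero] at h3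
  rcases hp.dvd_or_dvd h3 with h4 | h4
  · rcases hp.dvd_or_dvd h4 with h5 | h5
    · exact dvd_neg.1 h5
    · exfalso
      rcases hp.dvd_or_dvd ((dvd_add_left (dvd_mul_right _ _)).1 h5) with h6 | h6
      · exact not_dvd_small (by norm_num) (by linarith) h6
      · exact c4 (dvd_neg.2 (dvd_pow (hp.dvd_of_dvd_pow h6) three_ne_zero))
  · exact absurd h4 c1

lemma cube_root {u : ℕ} [Fact u.Prime] (h : u % 3 = 2) (a : ZMod u) : ∃ b : ZMod u, b ^ 3 = a := by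
  obtain ⟨m, hm⟩ : ∃ m, u = 3 * m + 2 := ⟨u / 3, by omega⟩
  refine ⟨a ^ (2 * m + 1), ?_⟩
  have h1 : a ^ (3 * m + 2) = a := by rw [← hm]; exact ZMod.pow_card a
  calc (a ^ (2 * m + 1)) ^ 3 = a ^ (3 * m + 2) * a ^ (3 * m + 1) := by ring
    _ = a * a ^ (3 * m + 1) := by rw [h1]
    _ = a ^ (3 * m + 2) := by ring
    _ = a := h1

lemma sq112 : IsSquare ((112 : ℕ) : ZMod 113) := ⟨15, by decide⟩

lemma root_mod {u : ℕ} (hu : u.Prime) (hb : 10 ^ 9 < u) (hm : u ≡ 338 [MOD 339]) (z : ℤ) :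
    ∃ w : ℤ, (u : ℤ) ∣ fD (-w ^ 3) z := by
  have : Fact u.Prime := ⟨hu⟩
  have : Fact (Nat.Prime 113) := ⟨by norm_num⟩
  have hm' : u % 339 = 338 := hm
  have ne : ∀ n : ℕ, 0 < n → n ≤ 1000 → (n : ZMod u) ≠ 0 := by
    intro n h0 h1 h
    have := Nat.le_of_dvd h0 ((ZMod.natCast_eq_zero_iff n u).1 h)
    omega
  have s1 : IsSquare (u : ZMod 113) := by
    have : (u : ZMod 113) = ((112 : ℕ) : ZMod 113) := by
      rw [ZMod.natCast_eq_natCast_iff']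
      omega
    rw [this]
    exact sq112
  obtain ⟨r, hr⟩ := (ZMod.exists_sq_eq_prime_iff_of_mod_four_eq_one (p := 113) (q := u)
    (by norm_num) (by omega)).1 s1
  have hr' : r * r = 113 := by rw [← hr]; norm_num
  obtain ⟨a, ha⟩ := cube_root (u := u) (by omega) (-928 + 216 * r)
  have h3 : (3 : ZMod u) ≠ 0 := by simpa using ne 3 (by norm_num) (by norm_num)
  have h164 : (164 : ZMod u) ≠ 0 := by simpa using ne 164 (by norm_num) (by norm_num)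
  have eq1 : a ^ 3 * (a ^ 3 + 1856) = 164 ^ 3 := by rw [ha]; linear_combination 46656 * hr'
  have a0 : a ≠ 0 := by
    rintro rfl
    exact pow_ne_zero 3 h164 (by rw [← eq1]; ring)
  obtain ⟨b, hb1⟩ : ∃ b : ZMod u, a * b = 164 := ⟨164 / a, by field_simp⟩
  have eq2 : a ^ 3 + 1856 = b ^ 3 := by
    apply mul_left_cancel₀ (pow_ne_zero 3 a0)
    rw [eq1, ← hb1]; ring
  obtain ⟨ξ, hξ⟩ : ∃ ξ : ZMod u, 3 * ξ = a - b + 2 := ⟨(a - b + 2) / 3, by field_simp⟩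
  have eq3 : ξ ^ 3 - 2 * ξ ^ 2 + 56 * ξ + 32 = 0 := by
    apply mul_left_cancel₀ (pow_ne_zero 3 h3)
    have : 3 ^ 3 * (ξ ^ 3 - 2 * ξ ^ 2 + 56 * ξ + 32) = (3 * ξ - 2) ^ 3 + 492 * (3 * ξ - 2) + 1856 := by
      ring
    rw [this, hξ]
    linear_combination eq2 - 3 * (a - b) * hb1
  obtain ⟨w, hw⟩ := cube_root (u := u) (by omega) (-ξ * z)
  refine ⟨(w.val : ℤ), (ZMod.intCast_zmod_eq_zero_iff_dvd _ u).1 ?_⟩
  unfold fD
  push_cast
  rw [ZMod.natCast_zmod_val, hw]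
  linear_combination (z : ZMod u) ^ 3 * eq3

lemma mono3 {x z : ℤ} (hz : 0 < z) (hx : 100000 * |x| ≤ z) (i j n : ℕ) (e : i + 1 + j = n) :
    -z ^ n ≤ 100000 * (x ^ (i + 1) * z ^ j) ∧ 100000 * (x ^ (i + 1) * z ^ j) ≤ z ^ n := by
  have h0 := abs_nonneg x
  have h1 : |x| ≤ z := by linarith
  have e1 : |100000 * (x ^ (i + 1) * z ^ j)| = (100000 * |x|) * (|x| ^ i * z ^ j) := by
    rw [abs_mul, abs_mul, abs_pow, abs_pow, abs_of_pos hz,
      abs_of_pos (by norm_num : (0 : ℤ) < 100000)]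
    ring
  rw [← abs_le, ← e, e1, show z ^ (i + 1 + j) = z * (z ^ i * z ^ j) by ring]
  gcongr

lemma sgn_dom {x z : ℤ} (hx : 0 < x) (hz : 100000 * |z| ≤ x) : 0 < fP x z := by
  have p3 : 0 < x ^ 3 := by positivity
  have p4 : 0 < x ^ 4 := by positivity
  have p6 : 0 < x ^ 6 := by positivity
  have e1 : 0 < fD x z := by
    have a := mono3 hx hz 2 0 3 rfl
    have b := mono3 hx hz 1 1 3 rfl
    have c := mono3 hx hz 0 2 3 rfl
    unfold fD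
    norm_num at a b c
    linarith [a.1, a.2, b.1, b.2, c.1, c.2]
  have e2 : 0 < fT x z := by
    have a := mono3 hx hz 3 0 4 rfl
    have b := mono3 hx hz 2 1 4 rfl
    have c := mono3 hx hz 0 3 4 rfl
    unfold fT
    norm_num at a b c
    linarith [a.1, a.2, b.1, b.2, c.1, c.2]
  have e3 : 0 < fG x z := by
    have a := mono3 hx hz 5 0 6 rfl
    have b := mono3 hx hz 4 1 6 rfl
    have c := mono3 hx hz 3 2 6 rfl
    have d := mono3 hx hz 2 3 6 rfl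
    have e := mono3 hx hz 1 4 6 rfl
    have f := mono3 hx hz 0 5 6 rfl
    unfold fG
    norm_num at a b c d e f
    linarith [a.1, b.2, c.1, d.1, e.1, f.1]
  exact mul_pos (mul_pos e1 e2) e3

lemma sgn_w {w z ε : ℤ} (hε : ε = 1 ∨ ε = -1) (h0 : 0 < ε * w) (hz : 100000 * |z| ≤ (ε * w) ^ 3) :
    ε * fP (-w ^ 3) z < 0 := by
  rcases hε with rfl | rfl
  · rw [one_mul] at h0 hz
    have := sgn_dom (x := w ^ 3) (z := -z) (by positivity) (by rwa [abs_neg])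
    rw [show w ^ 3 = - -w ^ 3 by ring, fP_neg] at this
    linarith
  · have := sgn_dom (x := (-1 * w) ^ 3) (z := z) (by positivity) hz
    rw [show (-1 * w) ^ 3 = -w ^ 3 by ring] at this
    linarith

lemma choose_w {z Q K a ε : ℤ} {u v : ℕ} (hu : u.Prime) (hv : v.Prime) (hb : 10 ^ 9 < u)
    (hm : u ≡ 338 [MOD 339]) (huv : u < v) (hQ : 0 < Q) (hQu : Q < u) (hK : 0 < K)
    (nz : ¬(u : ℤ) ∣ z) (hε : ε = 1 ∨ ε = -1) :
    ∃ w : ℤ, w ≡ a [ZMOD Q] ∧ (u : ℤ) ∣ fD (-w ^ 3) z ∧ ¬(u : ℤ) ^ 2 ∣ fD (-w ^ 3) z ∧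
      ¬(v : ℤ) ∣ w ∧ K * v ≤ ε * w ∧ ε * w ≤ Q * (K + 5) * v := by
  have hpu : Prime (u : ℤ) := Nat.prime_iff_prime_int.1 hu
  have hpv : Prime (v : ℤ) := Nat.prime_iff_prime_int.1 hv
  have hb' : (10 : ℤ) ^ 9 < u := by exact_mod_cast hb
  have huv' : (u : ℤ) < v := by exact_mod_cast huv
  have u0 : (0 : ℤ) < u := by linarith
  obtain ⟨w₁, hw₁⟩ := root_mod hu hb hm z
  obtain ⟨α, β, hαβ⟩ : IsCoprime (u : ℤ) Q :=
    (hpu.irreducible.coprime_iff_not_dvd).2 (not_dvd_small hQ hQu)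
  have Qu : 0 < Q * u := by positivity
  obtain ⟨r, hr⟩ : ∃ r : ℤ, r = (a * (α * u) + w₁ * (β * Q)) % (Q * u) := ⟨_, rfl⟩
  have r0 : 0 ≤ r := hr ▸ Int.emod_nonneg _ Qu.ne'
  have r1 : r < Q * u := hr ▸ Int.emod_lt_of_pos _ Qu
  have rm : r ≡ a * (α * u) + w₁ * (β * Q) [ZMOD Q * u] := hr ▸ Int.mod_modEq _ _
  have rQ : r ≡ a [ZMOD Q] := (rm.of_dvd (dvd_mul_right _ _)).trans
    (Int.modEq_iff_dvd.2 ⟨(a - w₁) * β, by linear_combination (-a) * hαβ⟩)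
  have ru : r ≡ w₁ [ZMOD u] := (rm.of_dvd (dvd_mul_left _ _)).trans
    (Int.modEq_iff_dvd.2 ⟨(w₁ - a) * α, by linear_combination (-w₁) * hαβ⟩)
  obtain ⟨J, hJ⟩ : ∃ J : ℤ, J = (K + 1) * v / u + 1 := ⟨_, rfl⟩
  have J1 : (K + 1) * v < J * u := by rw [hJ]; exact Int.lt_ediv_add_one_mul_self _ u0
  have J2 : J * u ≤ (K + 1) * v + u := by
    have := Int.ediv_mul_le ((K + 1) * v) u0.ne'
    rw [hJ]; linarith
  have ε2 : ε * ε = 1 := by rcases hε with rfl | rfl <;> norm_num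
  have εr : -(Q * u) ≤ ε * r ∧ ε * r ≤ Q * u := by rcases hε with rfl | rfl <;> constructor <;> linarith
  have nε : ∀ p j : ℤ, p ∣ ε * j → p ∣ j := by
    intro p j h
    have := h.mul_left ε
    rwa [← mul_assoc, ε2, one_mul] at this
  obtain ⟨f, hf⟩ : ∃ f : ℤ → ℤ, ∀ j, f j = r + u * (ε * ((J + j) * Q)) := ⟨_, fun _ => rfl⟩
  have good : ∀ j : ℤ, 0 ≤ j → j ≤ 2 → ¬(u : ℤ) ^ 2 ∣ fD (-f j ^ 3) z → ¬(v : ℤ) ∣ f j →
      ∃ w : ℤ, w ≡ a [ZMOD Q] ∧ (u : ℤ) ∣ fD (-w ^ 3) z ∧ ¬(u : ℤ) ^ 2 ∣ fD (-w ^ 3) z ∧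
      ¬(v : ℤ) ∣ w ∧ K * v ≤ ε * w ∧ ε * w ≤ Q * (K + 5) * v := by
    intro j j0 j2 h1 h2
    have e : ε * f j = ε * r + Q * (J * u) + j * (Q * u) := by
      rw [hf]; linear_combination (u * ((J + j) * Q)) * ε2
    refine ⟨f j, ?_, ?_, h1, h2, ?_, ?_⟩
    · refine Int.ModEq.trans ?_ rQ
      rw [hf]; exact Int.modEq_iff_dvd.2 ⟨-(u * (ε * (J + j))), by ring⟩
    · have h3 : f j ≡ w₁ [ZMOD u] := by
        refine Int.ModEq.trans ?_ ru
        rw [hf]; exact Int.modEq_iff_dvd.2 ⟨-(ε * ((J + j) * Q)), by ring⟩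
      exact ((fD_congr z (h3.pow 3).neg).dvd_iff).2 hw₁
    · have a1 : Q * ((K + 1) * v) ≤ Q * (J * u) := by gcongr
      have a2 : 0 ≤ j * (Q * u) := by positivity
      have a3 : Q * u ≤ Q * v := by gcongr
      have a4 : 1 * (K * v) ≤ Q * (K * v) := by gcongr; omega
      rw [e]; linarith [εr.1]
    · have a1 : Q * (J * u) ≤ Q * ((K + 1) * v + u) := by gcongr
      have a2 : j * (Q * u) ≤ 2 * (Q * u) := by gcongr
      have a3 : Q * u ≤ Q * v := by gcongr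
      rw [e]; linarith [εr.2]
  have two1 : ∀ i j : ℤ, 0 < j → j ≤ 2 → (u : ℤ) ^ 2 ∣ fD (-f i ^ 3) z →
      ¬(u : ℤ) ^ 2 ∣ fD (-f (i + j) ^ 3) z := by
    intro i j j0 j2 h1 h2
    rw [show f (i + j) = f i + u * (ε * (j * Q)) by rw [hf, hf]; ring] at h2
    rcases hpu.dvd_or_dvd (nε _ _ (shift hpu hb' nz h1 h2)) with h | h
    · exact not_dvd_small j0 (by linarith) h
    · exact not_dvd_small hQ hQu h
  have two2 : ∀ i j : ℤ, 0 < j → j ≤ 2 → (v : ℤ) ∣ f i → ¬(v : ℤ) ∣ f (i + j) := by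
    intro i j j0 j2 h1 h2
    rw [show f (i + j) = f i + u * (ε * (j * Q)) by rw [hf, hf]; ring] at h2
    rcases hpv.dvd_or_dvd ((dvd_add_right h1).1 h2) with h | h
    · exact not_dvd_small u0 huv' h
    · rcases hpv.dvd_or_dvd (nε _ _ h) with h | h
      · exact not_dvd_small j0 (by linarith) h
      · exact not_dvd_small hQ (by linarith) h
  have A01 := two1 0 1 (by norm_num) (by norm_num)
  have A02 := two1 0 2 (by norm_num) (by norm_num)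
  have A12 := two1 1 1 (by norm_num) (by norm_num)
  have B01 := two2 0 1 (by norm_num) (by norm_num)
  have B02 := two2 0 2 (by norm_num) (by norm_num)
  have B12 := two2 1 1 (by norm_num) (by norm_num)
  have G0 := good 0 (by norm_num) (by norm_num)
  have G1 := good 1 (by norm_num) (by norm_num)
  have G2 := good 2 (by norm_num) (by norm_num)
  rw [show (0 : ℤ) + 1 = 1 by norm_num] at A01 B01
  rw [show (0 : ℤ) + 2 = 2 by norm_num] at A02 B02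
  rw [show (1 : ℤ) + 1 = 2 by norm_num] at A12 B12
  by_cases a0 : (u : ℤ) ^ 2 ∣ fD (-f 0 ^ 3) z
  · by_cases b1 : (v : ℤ) ∣ f 1
    · exact G2 (A02 a0) (B12 b1)
    · exact G1 (A01 a0) b1
  · by_cases b0 : (v : ℤ) ∣ f 0
    · by_cases a1 : (u : ℤ) ^ 2 ∣ fD (-f 1 ^ 3) z
      · exact G2 (A12 a1) (B02 b0)
      · exact G1 a1 (B01 b0)
    · exact G0 a0 b0

end Pool.Agent.FS.JZero
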