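import Pool.Agent.FS.JZero.Arith

/-! Size, congruences and squarefree part of the product of the three factors. -/

namespace Pool.Agent.FS.JZero

/-- product of the three factors -/
def fP (x z : ℤ) : ℤ := fD x z * fT x z * fG x z

lemma fP_neg (x z : ℤ) : fP (-x) (-z) = -fP x z := by unfold fP fD fT fG; ring

lemma fP_zero (x : ℤ) : fP x 0 = x ^ 13 := by unfold fP fD fT fG; ring

lemma fG_congr {m x x' : ℤ} (z : ℤ) (hx : x ≡ x' [ZMOD m]) : fG x z ≡ fG x' z [ZMOD m] := by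
  unfold fG; gcongr

lemma fP_congr {m x x' z z' : ℤ} (hx : x ≡ x' [ZMOD m]) (hz : z ≡ z' [ZMOD m]) :
    fP x z ≡ fP x' z' [ZMOD m] := by
  unfold fP fD fT fG; gcongr

lemma mono {x z B : ℤ} (hx : |x| ≤ B) (hz : |z| ≤ B) (i j n : ℕ) (e : i + j = n) :
    -B ^ n ≤ x ^ i * z ^ j ∧ x ^ i * z ^ j ≤ B ^ n := by
  rw [← abs_le, ← e, abs_mul, abs_pow, abs_pow, pow_add]
  have : 0 ≤ B := (abs_nonneg _).trans hx
  gcongr

lemma size {x z B : ℤ} (hx : |x| ≤ B) (hz : |z| ≤ B) : |fP x z| ≤ 10 ^ 9 * B ^ 13 := by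
  have h0 : 0 ≤ B := (abs_nonneg _).trans hx
  have e1 : |fD x z| ≤ 100 * B ^ 3 := by
    have a := mono hx hz 3 0 3 rfl
    have b := mono hx hz 2 1 3 rfl
    have c := mono hx hz 1 2 3 rfl
    have d := mono hx hz 0 3 3 rfl
    have p : 0 ≤ B ^ 3 := by positivity
    unfold fD
    simp only [pow_zero, pow_one, mul_one, one_mul] at a b c d
    rw [abs_le]
    constructor <;> linarith [a.1, a.2, b.1, b.2, c.1, c.2, d.1, d.2]
  have e2 : |fT x z| ≤ 250 * B ^ 4 := by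
    have a := mono hx hz 4 0 4 rfl
    have b := mono hx hz 3 1 4 rfl
    have c := mono hx hz 1 3 4 rfl
    have d := mono hx hz 0 4 4 rfl
    have p : 0 ≤ B ^ 4 := by positivity
    unfold fT
    simp only [pow_zero, pow_one, mul_one, one_mul] at a b c d
    rw [abs_le]
    constructor <;> linarith [a.1, a.2, b.1, b.2, c.1, c.2, d.1, d.2]
  have e3 : |fG x z| ≤ 40000 * B ^ 6 := by
    have a := mono hx hz 6 0 6 rfl
    have b := mono hx hz 5 1 6 rfl
    have c := mono hx hz 4 2 6 rfl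
    have d := mono hx hz 3 3 6 rfl
    have e := mono hx hz 2 4 6 rfl
    have f := mono hx hz 1 5 6 rfl
    have g := mono hx hz 0 6 6 rfl
    have p : 0 ≤ B ^ 6 := by positivity
    unfold fG
    simp only [pow_zero, pow_one, mul_one, one_mul] at a b c d e f g
    rw [abs_le]
    constructor <;> linarith [a.1, a.2, b.1, b.2, c.1, c.2, d.1, d.2, e.1, e.2, f.1, f.2, g.1, g.2]
  rw [fP, abs_mul, abs_mul]
  calc |fD x z| * |fT x z| * |fG x z| ≤ (100 * B ^ 3) * (250 * B ^ 4) * (40000 * B ^ 6) := by gcongr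
    _ = _ := by ring

lemma sq_part {G ε : ℤ} (hε : ε = 1 ∨ ε = -1) (hG : 0 < ε * G) :
    ∃ d k : ℤ, Squarefree d ∧ 0 < ε * d ∧ k ≠ 0 ∧ d * k ^ 2 = G ∧ |d| ≤ |G| := by
  have hG0 : G ≠ 0 := by rintro rfl; simp at hG
  obtain ⟨b, k, hb, hk, e, hs⟩ := Nat.sq_mul_squarefree_of_pos (Int.natAbs_pos.2 hG0)
  have e' : (k : ℤ) ^ 2 * b = |G| := by rw [← Int.natCast_natAbs]; exact_mod_cast e
  have hb' : (0 : ℤ) < b := by exact_mod_cast hb
  have hk' : (1 : ℤ) ≤ k := by exact_mod_cast hk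
  have hk2 : (1 : ℤ) ≤ (k : ℤ) ^ 2 := one_le_pow₀ hk'
  have hle : (b : ℤ) ≤ |G| := by rw [← e']; nlinarith
  rcases hε with rfl | rfl
  · refine ⟨b, k, Int.squarefree_natCast.2 hs, by linarith, by omega, ?_, by rwa [abs_of_pos hb']⟩
    rw [abs_of_pos (by linarith)] at e'
    linarith
  · refine ⟨-b, k, ?_, by linarith, by omega, ?_, by rwa [abs_neg, abs_of_pos hb']⟩
    · rw [← Int.squarefree_natAbs]; simpa using hs
    · rw [abs_of_neg (by linarith)] at e'
      linarith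

end Pool.Agent.FS.JZero
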